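import Pool.Agent.H64.NC.DCH
import Pool.Agent.H64.NC.SFN

/-!
# Module FTR: the critical points outside the Julia set stay away from it, all families
-/

set_option autoImplicit false

open Filter Topology Polynomial Metric Set

namespace Pool.Agent.H3.UP

open Pool.Agent.H44.Fatou (rat rat_continuous)
open Pool.Agent.H56.HR (FS EqAt)
open Pool.Agent.H32.BT Pool.Agent.H79.Eul Pool.Agent.H79.Par Pool.Agent.H79.ES Pool.Agent.H44.RC
open Pool.Agent.H47.NM Pool.Agent.H57.CF Pool.Agent.H44.ND Pool.Agent.H35.EX Pool.Agent.H47.RJ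
open Pool.Agent.H64.NC

variable {d : ℕ}

theorem fat_fam {m : ℕ} (hd : 2 ≤ d) (hm : m ≤ d) {x : Em d m} (hcop : IsCoprime (pol x.1) (pol x.2))
    (hdeg : max (pol x.1).natDegree (pol x.2).natDegree = d) (hup : ¬ UpF d m x) :
    ∀ c, IsCrit (Rf (ex d m x)) c → c ∉ JS (Rf (ex d m x)) → ∃ (δ : ℝ) (N : ℕ), 0 < δ ∧ ∀ n, N ≤ n →
      ∀ y ∈ JS (Rf (ex d m x)), δ ≤ chord ((Rf (ex d m x))^[n] c) y := by
  have hcop' := ex_cop hcop
  have hdeg' := ex_deg hdeg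
  have key : ¬ Up (ex d m x) → ∀ c, IsCrit (Rf (ex d m x)) c → c ∉ JS (Rf (ex d m x)) →
      ∃ (δ : ℝ) (N : ℕ), 0 < δ ∧ ∀ n, N ≤ n → ∀ y ∈ JS (Rf (ex d m x)), δ ≤ chord ((Rf (ex d m x))^[n] c) y := by
    intro hup1
    exact hfat_of hd hcop' hdeg' (fun y hy => Pool.Agent.H64.MJ.fs_att hd hcop' hdeg' hup1 hy)
      (fun y hy => Pool.Agent.H44.NR.att_in hd hcop' hdeg' hup1 hy)
  rcases Nat.lt_or_ge m 2 with h2 | h2
  · rcases Nat.lt_or_ge m 1 with h1 | h1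
    · obtain rfl : m = 0 := by omega
      exact key fun h => hup (up_zero h)
    · obtain rfl : m = 1 := by omega
      exact key fun h => hup (Pool.Agent.H64.PF.up_one hd hcop hdeg h)
  · refine hfat_of hd hcop' hdeg' (fun y hy => Pool.Agent.H64.MF.fs_attF hd
      (fun k h3 h4 => Pool.Agent.H56.HF.fatF hd h3 h4) h2 hm hcop hdeg hup hy) (fun y hy => ?_)
    obtain ⟨l, z, φ, K, hl, hld, hg, hK, hφ, hup'⟩ := red_gen hd h2 hm hcop hdeg
    have hupz : ¬ UpF d l z := fun h => hup (hup' h)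
    obtain ⟨T, hGA⟩ := ga_gen hd hl hld hg hupz
    have h3 : φ y ∈ FS (Rf (ex d l z)) := hGA.af _ ((att_conj φ hφ y).2 hy)
    exact (Pool.Agent.H76.SU.fs_conj hK hφ y).1 h3

end Pool.Agent.H3.UP
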