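import Mathlib

/-!
# Module CLP: components which are points have small relatively clopen neighbourhoods
-/

set_option autoImplicit false

open Filter Topology Set

namespace Pool.Agent.H3.UP

theorem clp {X : Type*} [TopologicalSpace X] [CompactSpace X] [T2Space X] {K : Set X} (hK : IsClosed K) {y : X}
    (hy : y ∈ K) (hc : connectedComponentIn K y = {y}) {U : Set X} (hU : IsOpen U) (hyU : y ∈ U) :
    ∃ A : Set X, A ⊆ K ∧ IsClosed A ∧ IsClosed (K \ A) ∧ y ∈ A ∧ A ⊆ U := by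
  have hcK : CompactSpace K := isCompact_iff_compactSpace.1 hK.isCompact
  have h1 : connectedComponent (⟨y, hy⟩ : K) ⊆ {z : K | (z : X) ∈ U} := by
    intro z hz
    have h2 : (z : X) ∈ connectedComponentIn K y := by
      rw [connectedComponentIn_eq_image hy]
      exact ⟨z, hz, rfl⟩
    rw [hc] at h2
    show (z : X) ∈ U
    rw [mem_singleton_iff.1 h2]
    exact hyU
  rw [connectedComponent_eq_iInter_isClopen] at h1
  have hUo : IsOpen {z : K | (z : X) ∈ U} := hU.preimage continuous_subtype_val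
  obtain ⟨s, hs⟩ : ∃ s : {s : Set K // IsClopen s ∧ (⟨y, hy⟩ : K) ∈ s}, (s : Set K) ⊆ {z : K | (z : X) ∈ U} := by
    have hne : Nonempty {s : Set K // IsClopen s ∧ (⟨y, hy⟩ : K) ∈ s} := ⟨⟨univ, isClopen_univ, mem_univ _⟩⟩
    have hd : Directed (· ⊇ ·) fun s : {s : Set K // IsClopen s ∧ (⟨y, hy⟩ : K) ∈ s} => (s : Set K) := by
      intro s t
      exact ⟨⟨s.1 ∩ t.1, s.2.1.inter t.2.1, s.2.2, t.2.2⟩, inter_subset_left, inter_subset_right⟩
    exact exists_subset_nhds_of_compactSpace hd (fun s => s.2.1.1) fun z hz => hUo.mem_nhds (h1 hz)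
  refine ⟨(↑) '' (s : Set K), ?_, ?_, ?_, ⟨⟨y, hy⟩, s.2.2, rfl⟩, ?_⟩
  · rintro _ ⟨z, -, rfl⟩
    exact z.2
  · exact (hK.isClosedEmbedding_subtypeVal.isClosedMap _ s.2.1.1)
  · have h2 : K \ ((↑) '' (s : Set K)) = (↑) '' ((s : Set K)ᶜ) := by
      ext z
      constructor
      · rintro ⟨hz, hz2⟩
        refine ⟨⟨z, hz⟩, fun h => hz2 ⟨⟨z, hz⟩, h, rfl⟩, rfl⟩
      · rintro ⟨w, hw, rfl⟩
        refine ⟨w.2, ?_⟩
        rintro ⟨w', hw', he⟩
        rw [Subtype.coe_injective he] at hw'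
        exact hw hw'
    rw [h2]
    exact (hK.isClosedEmbedding_subtypeVal.isClosedMap _ s.2.1.2.isClosed_compl)
  · rintro _ ⟨z, hz, rfl⟩
    exact hs hz

end Pool.Agent.H3.UP
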