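import Pool.Agent.H3.UP.GUE
import Pool.Agent.H3.UP.CLP

/-!
# Module TDU: components of the closure of the critical orbits which are points

`pnt`: if `{y}` is a component of `K` then the pull backs of the disc of radius `δ` at `f^n(x)` along `x, .., f^n(x)` contain critical points at more than `D` times if `x ∈ K`, `f^n(x)` is near `y`, `n ≥ N`.
`tdu`: `K` totally disconnected, `N` does not depend on `y`.

PROOF. `clp` gives `A ⊆ K` with `A`, `K \ A` closed, `y ∈ A`, `A` in the disc of radius `δ / 4` at `y`. `E` is the set of the points whose distance from a point of `A` is smaller than `ρ`, where `ρ ≤ δ / 4` and `ρ` is at most the distance of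
`A` and `K \ A`. Then `K ∩ E = A`, and `E` is in the disc of radius `δ` at every point of `A`. `gue`.
-/

set_option autoImplicit false

open Filter Topology Set

namespace Pool.Agent.H3.UP

open Pool.Agent.H35.EX (chord chord_comm)
open Pool.Agent.H32.BT (IsCrit)
open Pool.Agent.H44.RR (chord_zero)
open Pool.Agent.H44.RC (CC cc_open cc_mem cc_sub cc_map cc_eq cc_mono cc_max ch_ball ch_tri ch_nhds)
open Pool.Agent.H3.NC (Wk CT PR)
open Pool.Agent.H64.JS (KJ kj_inv kj_sub it_mem)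

variable {f : OnePoint ℂ → OnePoint ℂ}

theorem kj_cl (J : Set (OnePoint ℂ)) : IsClosed (KJ {c | IsCrit f c} J f) := isClosed_closure

theorem pnt (hf : Continuous f) (hfin : {c | IsCrit f c}.Finite) {J : Set (OnePoint ℂ)} (hJc : IsClosed J)
    (hJi : ∀ x ∈ J, f x ∈ J)
    (hfat : ∀ c, IsCrit f c → c ∉ J → ∃ (δ : ℝ) (N : ℕ), 0 < δ ∧ ∀ m, N ≤ m → ∀ y ∈ J, δ ≤ chord (f^[m] c) y)
    (hpr : ∀ c, IsCrit f c → c ∈ J → PR f c) {y : OnePoint ℂ} (hy : y ∈ KJ {c | IsCrit f c} J f)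
    (hcy : connectedComponentIn (KJ {c | IsCrit f c} J f) y = {y}) {δ : ℝ} (hδ : 0 < δ) (D : ℕ) :
    ∃ N : ℕ, ∃ U ∈ 𝓝 y, ∀ n, N ≤ n → ∀ x ∈ KJ {c | IsCrit f c} J f, f^[n] x ∈ U → D < (CT f x n δ).ncard := by
  have hdy : IsOpen {z | chord y z < δ / 4} := ch_ball y (δ / 4)
  have hyd : y ∈ {z | chord y z < δ / 4} := by
    show chord y y < δ / 4
    rw [chord_zero]
    linarith
  obtain ⟨A, hAK, hA, hA', hyA, hAU⟩ := clp (kj_cl J) hy hcy hdy hyd
  obtain ⟨ρ0, hρ0, hρ1⟩ := Pool.Agent.H64.NC.ch_sep hA hA' (disjoint_left.2 fun x hx hx' => hx'.2 hx)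
  obtain ⟨ρ, hρ⟩ : ∃ ρ : ℝ, ρ = min ρ0 (δ / 4) := ⟨_, rfl⟩
  have hρp : 0 < ρ := by rw [hρ]; exact lt_min hρ0 (by linarith)
  have hρ0' : ρ ≤ ρ0 := by rw [hρ]; exact min_le_left _ _
  have hρδ : ρ ≤ δ / 4 := by rw [hρ]; exact min_le_right _ _
  obtain ⟨E, hE⟩ : ∃ E : Set (OnePoint ℂ), E = ⋃ a ∈ A, {z | chord a z < ρ} := ⟨_, rfl⟩
  have hEo : IsOpen E := by
    rw [hE]
    exact isOpen_biUnion fun a _ => ch_ball a ρ
  have hAE : A ⊆ E := by
    intro a ha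
    rw [hE]
    refine mem_biUnion ha ?_
    show chord a a < ρ
    rw [chord_zero]
    exact hρp
  have hKE : KJ {c | IsCrit f c} J f ∩ E = A := by
    refine Subset.antisymm ?_ fun a ha => ⟨hAK ha, hAE ha⟩
    rintro z ⟨hz, hzE⟩
    rw [hE] at hzE
    obtain ⟨a, ha, hza⟩ := mem_iUnion₂.1 hzE
    by_contra hzA
    have h1 := hρ1 a ha z ⟨hz, hzA⟩
    have h2 : chord a z < ρ := hza
    linarith
  obtain ⟨N, hN⟩ := gue hf hfin hJc hJi hfat hpr hEo (by rw [hKE]; exact hA) D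
  refine ⟨N, (KJ {c | IsCrit f c} J f \ A)ᶜ, hA'.isOpen_compl.mem_nhds fun h => h.2 hyA, fun n hn x hx hxU => ?_⟩
  have hxK := kj_it hf hx n
  have hxA : f^[n] x ∈ A := by
    by_contra h
    exact hxU ⟨hxK, h⟩
  refine (hN n hn x hx (hAE hxA)).trans_le (Set.ncard_le_ncard ?_ ((finite_lt_nat n).subset fun _ hk => hk.1))
  rintro k ⟨hk, c, hc, hcW⟩
  refine ⟨hk, c, hc, ?_⟩
  have hsub : E ⊆ {z | chord z (f^[n] x) < δ} := by
    intro z hz
    rw [hE] at hz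
    obtain ⟨a, ha, hza⟩ := mem_iUnion₂.1 hz
    have h1 : chord a z < ρ := hza
    have h2 : chord y a < δ / 4 := hAU ha
    have h3 : chord y (f^[n] x) < δ / 4 := hAU hxA
    have h4 := ch_tri z a (f^[n] x)
    have h5 := ch_tri a y (f^[n] x)
    rw [chord_comm] at h1 h2
    show chord z (f^[n] x) < δ
    linarith
  have h1 : f^[n - k] (f^[k] x) = f^[n] x := by rw [← Function.iterate_add_apply, Nat.sub_add_cancel hk.le]
  have h2 : f^[k] x ∈ CC f (n - k) {z | chord z (f^[n] x) < δ} (f^[k] x) := by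
    refine cc_mem ?_
    show chord (f^[n - k] (f^[k] x)) (f^[n] x) < δ
    rw [h1, chord_zero]
    exact hδ
  exact cc_mono hsub h2 hcW

theorem tdu (hf : Continuous f) (hfin : {c | IsCrit f c}.Finite) {J : Set (OnePoint ℂ)} (hJc : IsClosed J)
    (hJi : ∀ x ∈ J, f x ∈ J)
    (hfat : ∀ c, IsCrit f c → c ∉ J → ∃ (δ : ℝ) (N : ℕ), 0 < δ ∧ ∀ m, N ≤ m → ∀ y ∈ J, δ ≤ chord (f^[m] c) y)
    (hpr : ∀ c, IsCrit f c → c ∈ J → PR f c) (htd : IsTotallyDisconnected (KJ {c | IsCrit f c} J f)) {δ : ℝ}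
    (hδ : 0 < δ) (D : ℕ) :
    ∃ N : ℕ, ∀ n, N ≤ n → ∀ x ∈ KJ {c | IsCrit f c} J f, D < (CT f x n δ).ncard := by
  have h1 : ∀ y ∈ KJ {c | IsCrit f c} J f, ∃ N : ℕ, ∃ U ∈ 𝓝 y, ∀ n, N ≤ n → ∀ x ∈ KJ {c | IsCrit f c} J f,
      f^[n] x ∈ U → D < (CT f x n δ).ncard := by
    intro y hy
    refine pnt hf hfin hJc hJi hfat hpr hy ?_ hδ D
    refine Subset.antisymm ?_ (singleton_subset_iff.2 (mem_connectedComponentIn hy))
    intro z hz
    exact htd _ (connectedComponentIn_subset _ _) isPreconnected_connectedComponentIn hz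
      (mem_connectedComponentIn hy)
  choose! N U hU hN using h1
  obtain ⟨t, ht, hcov⟩ := (kj_cl (f := f) J).isCompact.elim_nhds_subcover U hU
  refine ⟨t.sup N, fun n hn x hx => ?_⟩
  obtain ⟨y, hyt, hy⟩ := mem_iUnion₂.1 (hcov (kj_it hf hx n))
  exact hN y (ht y hyt) n ((Finset.le_sup hyt).trans hn) x hx hy

end Pool.Agent.H3.UP
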