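import Pool.Agent.H3.UP.TDU
import Pool.Agent.H56.UE.UEX

/-!
# Module EXU: positive upper exponents on the closure of the critical orbits

PROOF. `ue`: for infinitely many `n` the pull backs of the disc of radius `δ` at `f^n(x)` contain critical points at most `M` times. Let `y` be a limit point of these `f^n(x)`. By `pnt` the component of `y` in `K` is not a point.
-/

set_option autoImplicit false

open Filter Topology Set Polynomial

namespace Pool.Agent.H3.UP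

open Pool.Agent.H35.EX (chord chord_comm)
open Pool.Agent.H32.BT (IsCrit)
open Pool.Agent.H44.Fatou (rat)
open Pool.Agent.H56.UE (PUE ue)
open Pool.Agent.H3.NC (Wk CT PR)
open Pool.Agent.H64.JS (KJ kj_inv kj_sub it_mem)

theorem exu {P Q : Polynomial ℂ} (hcop : IsCoprime P Q) (hd : 1 ≤ max P.natDegree Q.natDegree)
    (hf : Continuous (rat P Q)) (hfin : {c | IsCrit (rat P Q) c}.Finite) {J : Set (OnePoint ℂ)} (hJc : IsClosed J)
    (hJi : ∀ x ∈ J, rat P Q x ∈ J)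
    (hfat : ∀ c, IsCrit (rat P Q) c → c ∉ J → ∃ (δ : ℝ) (N : ℕ), 0 < δ ∧ ∀ m, N ≤ m → ∀ y ∈ J,
      δ ≤ chord ((rat P Q)^[m] c) y)
    (hpr : ∀ c, IsCrit (rat P Q) c → c ∈ J → PR (rat P Q) c) {x : OnePoint ℂ}
    (hx : x ∈ KJ {c | IsCrit (rat P Q) c} J (rat P Q)) (hp : PUE (rat P Q) x) :
    ∃ y, MapClusterPt y atTop (fun n : ℕ => (rat P Q)^[n] x) ∧
      connectedComponentIn (KJ {c | IsCrit (rat P Q) c} J (rat P Q)) y ≠ {y} := by
  obtain ⟨δ, hδ, M, hinf⟩ := ue hcop hd hp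
  obtain ⟨φ, hφ, hφm⟩ : ∃ φ : ℕ → ℕ, StrictMono φ ∧ ∀ i, (CT (rat P Q) x (φ i) δ).ncard ≤ M := by
    refine ⟨Nat.nth (fun n => (CT (rat P Q) x n δ).ncard ≤ M), Nat.nth_strictMono hinf, fun i => ?_⟩
    exact Nat.nth_mem_of_infinite hinf i
  have hKc : IsCompact (KJ {c | IsCrit (rat P Q) c} J (rat P Q)) := (kj_cl J).isCompact
  obtain ⟨y, hyK, hy⟩ := hKc.exists_mapClusterPt_of_frequently (f := fun i : ℕ => (rat P Q)^[φ i] x) (l := atTop)
    (Eventually.frequently (Eventually.of_forall fun i => kj_it hf hx (φ i)))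
  refine ⟨y, hy.of_comp hφ.tendsto_atTop, fun hc => ?_⟩
  obtain ⟨N, U, hU, hN⟩ := pnt hf hfin hJc hJi hfat hpr hyK hc hδ M
  obtain ⟨i, hi, hiN⟩ := ((hy.frequently hU).and_eventually (hφ.tendsto_atTop.eventually_ge_atTop N)).exists
  exact absurd (hφm i) (not_le.2 (hN (φ i) hiN x hx hi))

end Pool.Agent.H3.UP
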