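import Pool.Agent.H3.NC.Sph
import Pool.Agent.H44.RC.CCO
import Pool.Agent.H64.NC.CHU
import Pool.Agent.H64.JS.COM

/-!
# Module GUE: open sets whose boundary misses the closure of the critical orbits

`K = KJ {c | IsCrit f c} J f`: the closure of the orbits of the critical points in `J` (after time `0`). If all of them are persistently recurrent, `E` is open and `K ∩ E` is closed, then the pull backs of `E`
along `x, .., f^n(x)` (`x ∈ K`, `f^n(x) ∈ E`, `n ≥ N`) contain critical points at more than `D` times.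

PROOF. Otherwise the component `W` of `f^(-n)(E)` at `x` is open and meets the orbit of a critical point of `J`; let `p = f^T(c)` be a point of `W` with minimal `T ≥ 1`. Then `f^n(p) ∈ K ∩ E`, so the disc of radius `ρ`
at `f^n(p)` is in `E`. The pull backs of this disc along `f(c), .., f^(T + n)(c)` are in the pull backs of `E` at the last `n` times, and contain no critical point at the first `T - 1` times: the iterate of a critical point
of `J` would be a point of `W` with a smaller `T`, the others do not come near `J`. This contradicts the persistent recurrence of `c` with `ρ` and `D`.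
-/

set_option autoImplicit false

open Filter Topology Set

namespace Pool.Agent.H3.UP

open Pool.Agent.H35.EX (chord chord_comm)
open Pool.Agent.H32.BT (IsCrit)
open Pool.Agent.H44.RR (chord_zero)
open Pool.Agent.H44.RC (CC cc_open cc_mem cc_sub cc_map cc_eq cc_mono cc_max ch_ball ch_tri)
open Pool.Agent.H3.NC (Wk CT PR)
open Pool.Agent.H64.JS (KJ kj_inv kj_sub it_mem)

variable {f : OnePoint ℂ → OnePoint ℂ}

/-- the critical times of the pull backs of `E` -/
def CE (f : OnePoint ℂ → OnePoint ℂ) (E : Set (OnePoint ℂ)) (x : OnePoint ℂ) (n : ℕ) : Set ℕ :=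
  {k | k < n ∧ ∃ c, IsCrit f c ∧ c ∈ CC f (n - k) E (f^[k] x)}

theorem ce_fin (E : Set (OnePoint ℂ)) (x : OnePoint ℂ) (n : ℕ) : (CE f E x n).Finite :=
  (finite_lt_nat n).subset fun _ hk => hk.1

theorem kj_it {J : Set (OnePoint ℂ)} (hf : Continuous f) {x : OnePoint ℂ} (hx : x ∈ KJ {c | IsCrit f c} J f) (n : ℕ) :
    f^[n] x ∈ KJ {c | IsCrit f c} J f := it_mem (kj_inv hf) hx n

/-- the attracted critical points stay away from `J` -/
theorem far_all (hfin : {c | IsCrit f c}.Finite) {J : Set (OnePoint ℂ)}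
    (hfat : ∀ c, IsCrit f c → c ∉ J → ∃ (δ : ℝ) (N : ℕ), 0 < δ ∧ ∀ m, N ≤ m → ∀ y ∈ J, δ ≤ chord (f^[m] c) y) :
    ∃ δF : ℝ, 0 < δF ∧ ∃ N0 : ℕ, ∀ m, N0 ≤ m → ∀ c, IsCrit f c → c ∉ J → ∀ y ∈ J, δF ≤ chord (f^[m] c) y := by
  have h1 : ∀ᶠ δ in 𝓝[>] (0 : ℝ), ∀ c ∈ {c | IsCrit f c}, c ∉ J → ∀ᶠ m : ℕ in atTop, ∀ y ∈ J,
      δ ≤ chord (f^[m] c) y := by
    rw [Filter.eventually_all_finite hfin]
    intro c hc
    by_cases hcJ : c ∈ J
    · exact Filter.Eventually.of_forall fun δ h => absurd hcJ h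
    · obtain ⟨δ, N, h2, h3⟩ := hfat c hc hcJ
      have h4 : ∀ᶠ δ' in 𝓝[>] (0 : ℝ), δ' < δ := nhdsWithin_le_nhds (Iio_mem_nhds h2)
      filter_upwards [h4] with δ' h5 _
      filter_upwards [eventually_ge_atTop N] with m hm y hy
      exact h5.le.trans (h3 m hm y hy)
  obtain ⟨δF, h2, h3⟩ := (h1.and self_mem_nhdsWithin).exists
  have h4 : ∀ᶠ m : ℕ in atTop, ∀ c ∈ {c | IsCrit f c}, c ∉ J → ∀ y ∈ J, δF ≤ chord (f^[m] c) y := by
    rw [Filter.eventually_all_finite hfin]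
    intro c hc
    by_cases hcJ : c ∈ J
    · exact Filter.Eventually.of_forall fun m h => absurd hcJ h
    · filter_upwards [h2 c hc hcJ] with m hm _
      exact hm
  obtain ⟨N0, hN0⟩ := eventually_atTop.1 h4
  exact ⟨δF, h3, N0, fun m hm c hc hcJ y hy => hN0 m hm c hc hcJ y hy⟩

theorem gue (hf : Continuous f) (hfin : {c | IsCrit f c}.Finite) {J : Set (OnePoint ℂ)} (hJc : IsClosed J)
    (hJi : ∀ x ∈ J, f x ∈ J)
    (hfat : ∀ c, IsCrit f c → c ∉ J → ∃ (δ : ℝ) (N : ℕ), 0 < δ ∧ ∀ m, N ≤ m → ∀ y ∈ J, δ ≤ chord (f^[m] c) y)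
    (hpr : ∀ c, IsCrit f c → c ∈ J → PR f c) {E : Set (OnePoint ℂ)} (hE : IsOpen E)
    (hEK : IsClosed (KJ {c | IsCrit f c} J f ∩ E)) (D : ℕ) :
    ∃ N : ℕ, ∀ n, N ≤ n → ∀ x ∈ KJ {c | IsCrit f c} J f, f^[n] x ∈ E → D < (CE f E x n).ncard := by
  obtain ⟨K, hK⟩ : ∃ K, K = KJ {c | IsCrit f c} J f := ⟨_, rfl⟩
  have hKJ : K ⊆ J := by
    rw [hK]
    exact kj_sub hJc hJi
  have hKn : ∀ x ∈ K, ∀ n : ℕ, f^[n] x ∈ K := by
    rw [hK]
    exact fun x hx n => kj_it hf hx n
  obtain ⟨δF, hδF, N0, hN0⟩ := far_all hfin hfat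
  -- the distance of `K ∩ E` from the complement of `E`
  rw [← hK] at hEK ⊢
  obtain ⟨ρ0, hρ0, hρ1⟩ := Pool.Agent.H64.NC.ch_sep hEK hE.isClosed_compl
    (disjoint_left.2 fun x hx hx' => hx' hx.2)
  obtain ⟨ρ, hρ⟩ : ∃ ρ : ℝ, ρ = min ρ0 δF := ⟨_, rfl⟩
  have hρp : 0 < ρ := by rw [hρ]; exact lt_min hρ0 hδF
  have hρ0' : ρ ≤ ρ0 := by rw [hρ]; exact min_le_left _ _
  have hρF : ρ ≤ δF := by rw [hρ]; exact min_le_right _ _
  -- the bound from the persistent recurrence
  obtain ⟨B, hB⟩ : ∃ B : ℕ, ∀ c, IsCrit f c → c ∈ J → ∀ n, (CT f (f c) n ρ).ncard ≤ D → n < B := by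
    have h1 : ∀ᶠ B : ℕ in atTop, ∀ c ∈ {c | IsCrit f c}, c ∈ J → ∀ n, (CT f (f c) n ρ).ncard ≤ D → n < B := by
      rw [Filter.eventually_all_finite hfin]
      intro c hc
      by_cases hcJ : c ∈ J
      · obtain ⟨b, hb⟩ := (hpr c hc hcJ ρ hρp D).bddAbove
        filter_upwards [eventually_gt_atTop b] with B hB _ n hn
        exact lt_of_le_of_lt (hb hn) hB
      · exact Filter.Eventually.of_forall fun B h => absurd h hcJ
    obtain ⟨B, hB⟩ := h1.exists
    exact ⟨B, fun c hc => hB c hc⟩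
  refine ⟨max B N0, fun n hn x hx hxE => ?_⟩
  have hnB : B ≤ n := (le_max_left _ _).trans hn
  have hnN : N0 ≤ n := (le_max_right _ _).trans hn
  by_contra hle
  push Not at hle
  -- the first visit
  have hW : CC f n E x ∈ 𝓝 x := (cc_open hf n hE x).mem_nhds (cc_mem hxE)
  have hex : ∃ T : ℕ, 1 ≤ T ∧ ∃ c, IsCrit f c ∧ c ∈ J ∧ f^[T] c ∈ CC f n E x := by
    rw [hK] at hx
    obtain ⟨y, hy, c, hc, hcJ, T, hT, rfl⟩ := mem_closure_iff_nhds.1 hx _ hW
    exact ⟨T, hT, c, hc, hcJ, hy⟩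
  classical
  obtain ⟨T, hTe, hTm⟩ : ∃ T : ℕ, (1 ≤ T ∧ ∃ c, IsCrit f c ∧ c ∈ J ∧ f^[T] c ∈ CC f n E x) ∧
      ∀ m < T, ¬ (1 ≤ m ∧ ∃ c, IsCrit f c ∧ c ∈ J ∧ f^[m] c ∈ CC f n E x) :=
    ⟨Nat.find hex, Nat.find_spec hex, fun m hm => Nat.find_min hex hm⟩
  obtain ⟨hT1, c, hc, hcJ, hp⟩ := hTe
  obtain ⟨S, rfl⟩ : ∃ S, T = S + 1 := ⟨T - 1, by omega⟩
  have hS : f^[S] (f c) = f^[S + 1] c := (Function.iterate_succ_apply f S c).symm
  obtain ⟨p, hpd⟩ : ∃ p, p = f^[S + 1] c := ⟨_, rfl⟩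
  rw [← hpd] at hp hS
  have hpK : p ∈ K := by
    rw [hK, hpd]
    exact subset_closure ⟨c, hc, hcJ, S + 1, by omega, rfl⟩
  have hpE : f^[n] p ∈ E := cc_sub hp
  have hball : ∀ z, chord z (f^[n] p) < ρ → z ∈ E := by
    intro z hz
    by_contra hzE
    have h1 := hρ1 _ ⟨hKn p hpK n, hpE⟩ z hzE
    rw [chord_comm] at h1
    linarith
  have hN : f^[S + n] (f c) = f^[n] p := by
    rw [add_comm, Function.iterate_add_apply, hS]
  -- the critical times of the disc
  have hsub : CT f (f c) (S + n) ρ ⊆ (fun i => i + S) '' CE f E x n := by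
    rintro k ⟨hk, c', hc', hcW⟩
    have hcW2 : c' ∈ CC f (S + n - k) {z | chord z (f^[S + n] (f c)) < ρ} (f^[k] (f c)) := hcW
    rw [hN] at hcW2
    rcases Nat.lt_or_ge k S with hkS | hkS
    · exfalso
      have h1 : S - k ≤ S + n - k := by omega
      have h2 := cc_map hf h1 hcW2
      have h3 : S + n - k - (S - k) = n := by omega
      have h4 : f^[S - k] (f^[k] (f c)) = p := by
        rw [← Function.iterate_add_apply, Nat.sub_add_cancel hkS.le, hS]
      rw [h3, h4] at h2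
      have h5 : f^[S - k] c' ∈ CC f n E x := by
        refine cc_mono ?_ hp h2
        exact fun z hz => hball z hz
      by_cases hcJ' : c' ∈ J
      · exact hTm (S - k) (by omega) ⟨by omega, c', hc', hcJ', h5⟩
      · have h6 := cc_sub h2
        have h7 : chord (f^[n] (f^[S - k] c')) (f^[n] p) < ρ := h6
        rw [← Function.iterate_add_apply] at h7
        have h8 := hN0 (n + (S - k)) (by omega) c' hc' hcJ' _ (hKJ (hKn p hpK n))
        linarith
    · refine ⟨k - S, ⟨by omega, c', hc', ?_⟩, by show k - S + S = k; omega⟩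
      have h1 : S + n - k = n - (k - S) := by omega
      have h2 : f^[k] (f c) = f^[k - S] p := by
        have h3 : k = (k - S) + S := by omega
        conv_lhs => rw [h3]
        rw [Function.iterate_add_apply, hS]
      rw [h1, h2] at hcW2
      have h4 := cc_map hf (show k - S ≤ n by omega) hp
      exact cc_mono (fun z hz => hball z hz) h4 hcW2
  have h1 : (CT f (f c) (S + n) ρ).ncard ≤ D :=
    (Set.ncard_le_ncard hsub ((ce_fin E x n).image _)).trans ((Set.ncard_image_le (ce_fin E x n)).trans hle)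
  have h2 := hB c hc hcJ _ h1
  omega

end Pool.Agent.H3.UP
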